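import Pool.Agent.W810.SYN.Stm

set_option autoImplicit false

/-! Project SYN (MP_de9001_an), part RL: Riemann-Lebesgue lemma and its Cesaro form. -/

namespace Pool.Agent.W109.SYN.RL

open MeasureTheory AddCircle Filter Topology Pool.Agent.Results.MP_535799_an.NonSidon
open Pool.Agent.W810.SYN

theorem norm_coeff_le (f : L1) (n : ℤ) : ‖coeff f n‖ ≤ ‖f‖ := by
  unfold coeff fourierCoeff
  refine (norm_integral_le_integral_norm _).trans ?_
  rw [L1.norm_eq_integral_norm]
  apply le_of_eq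
  apply integral_congr_ae
  refine Filter.Eventually.of_forall (fun x => ?_)
  simp only
  rw [norm_smul, fourier_apply, Circle.norm_coe, one_mul]

theorem fin_supp (p : L1) (hp : p ∈ Submodule.span ℂ (Set.range (fun n : ℤ => (fourierLp 1 n : L1)))) :
    ∃ M : ℕ, ∀ n : ℤ, (M : ℤ) ≤ |n| → coeff p n = 0 := by
  induction hp using Submodule.span_induction with
  | mem x hx =>
    obtain ⟨k, rfl⟩ := hx
    refine ⟨k.natAbs + 1, fun n hn => ?_⟩
    show coeff (fourierLp 1 k) n = 0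
    rw [coeff_fourierLp, if_neg]
    rintro rfl
    push_cast at hn
    linarith
  | zero => exact ⟨0, fun n _ => coeff_zero n⟩
  | add x y _ _ hx hy =>
    obtain ⟨M, hM⟩ := hx
    obtain ⟨M', hM'⟩ := hy
    refine ⟨max M M', fun n hn => ?_⟩
    have h1 : (M : ℤ) ≤ |n| := le_trans (by exact_mod_cast le_max_left M M') hn
    have h2 : (M' : ℤ) ≤ |n| := le_trans (by exact_mod_cast le_max_right M M') hn
    rw [coeff_add, hM n h1, hM' n h2, add_zero]
  | smul a x _ hx =>
    obtain ⟨M, hM⟩ := hx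
    exact ⟨M, fun n hn => by rw [coeff_smul, hM n hn, mul_zero]⟩

theorem rl (f : L1) (ε : ℝ) (hε : 0 < ε) :
    ∃ M : ℕ, ∀ n : ℤ, (M : ℤ) ≤ |n| → ‖coeff f n‖ < ε := by
  have h1 := span_fourierLp_closure_eq_top (T := 2 * Real.pi) (p := 1) ENNReal.one_ne_top
  have h2 : f ∈ (Submodule.span ℂ (Set.range (@fourierLp (2 * Real.pi) _ 1 _))).topologicalClosure := by
    rw [h1]; exact Submodule.mem_top
  have h3 : f ∈ closure ((Submodule.span ℂ (Set.range (@fourierLp (2 * Real.pi) _ 1 _)) :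
      Submodule ℂ L1) : Set L1) := h2
  rw [Metric.mem_closure_iff] at h3
  obtain ⟨p, hp, hfp⟩ := h3 ε hε
  obtain ⟨M, hM⟩ := fin_supp p hp
  refine ⟨M, fun n hn => ?_⟩
  have h4 : coeff f n = coeff (f - p) n := by
    rw [coeff_sub, hM n hn, sub_zero]
  rw [h4]
  refine lt_of_le_of_lt (norm_coeff_le _ _) ?_
  rwa [← dist_eq_norm]

theorem main : S_RL := by
  intro f
  refine ⟨fun ε hε => rl f ε hε, ?_⟩
  rw [Metric.tendsto_atTop]
  intro ε hε
  obtain ⟨M, hM⟩ := rl f (ε / 4) (by positivity)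
  obtain ⟨K, hK⟩ := exists_nat_gt (‖f‖ * (2 * M + 1) / (ε / 4))
  refine ⟨K, fun N hN => ?_⟩
  have hNpos : (0 : ℝ) < (N : ℝ) + 1 := by positivity
  have hBN0 : 0 ≤ BN f N := by
    unfold BN
    exact Finset.sum_nonneg (fun _ _ => norm_nonneg _)
  have hBN : BN f N ≤ (2 * N + 2) * (ε / 4) + ‖f‖ * (2 * M + 1) := by
    unfold BN
    have h1 : ∀ n ∈ Finset.Icc (-(N : ℤ) - 1) N, ‖coeff f n‖ ≤
        ε / 4 + (if n ∈ Finset.Icc (-(M : ℤ)) M then ‖f‖ else 0) := by
      intro n _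
      by_cases h : (M : ℤ) ≤ |n|
      · have h2 := (hM n h).le
        have h3 : (0 : ℝ) ≤ (if n ∈ Finset.Icc (-(M : ℤ)) M then ‖f‖ else 0) := by
          split_ifs
          · exact norm_nonneg _
          · exact le_rfl
        linarith
      · have h2 : n ∈ Finset.Icc (-(M : ℤ)) M := by
          rw [Finset.mem_Icc, ← abs_le]
          exact (not_le.1 h).le
        rw [if_pos h2]
        have := norm_coeff_le f n
        linarith [hε]
    refine (Finset.sum_le_sum h1).trans ?_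
    rw [Finset.sum_add_distrib, Finset.sum_const, Int.card_Icc, nsmul_eq_mul]
    have h4 : ((((N : ℤ) + 1 - (-(N : ℤ) - 1)).toNat : ℕ) : ℝ) = 2 * N + 2 := by
      have : ((N : ℤ) + 1 - (-(N : ℤ) - 1)).toNat = 2 * N + 2 := by omega
      rw [this]; push_cast; ring
    rw [h4]
    have h5 : ∑ n ∈ Finset.Icc (-(N : ℤ) - 1) N,
        (if n ∈ Finset.Icc (-(M : ℤ)) M then ‖f‖ else 0) ≤ ‖f‖ * (2 * M + 1) := by
      rw [← Finset.sum_filter]
      rw [Finset.sum_const, nsmul_eq_mul, mul_comm]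
      refine mul_le_mul_of_nonneg_left ?_ (norm_nonneg _)
      have h6 : (Finset.filter (fun n => n ∈ Finset.Icc (-(M : ℤ)) M)
          (Finset.Icc (-(N : ℤ) - 1) N)).card ≤ (Finset.Icc (-(M : ℤ)) M).card := by
        apply Finset.card_le_card
        intro n hn
        exact (Finset.mem_filter.1 hn).2
      have h7 : (Finset.Icc (-(M : ℤ)) M).card = 2 * M + 1 := by
        rw [Int.card_Icc]; omega
      rw [h7] at h6
      exact_mod_cast h6
    linarith
  rw [Real.dist_eq, sub_zero, abs_of_nonneg (div_nonneg hBN0 hNpos.le), div_lt_iff₀ hNpos]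
  have hKN : (K : ℝ) ≤ N := by exact_mod_cast hN
  have h8 : ‖f‖ * (2 * M + 1) < (ε / 4) * ((N : ℝ) + 1) := by
    rw [div_lt_iff₀ (by positivity)] at hK
    nlinarith
  nlinarith

end Pool.Agent.W109.SYN.RL
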